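import Pool.Agent.Lib.MP_d0d59f_nt.EO.Final

/-!
Every orbit of every map `T_d` is sparse, and there is a sparse set which every orbit enters.

There are `c > 1 - H(log 2 / log 3) / log 2 = 0.05004...` (`H` the binary entropy) and `C > 0` such that for all
`d` odd and not divisible by `3`, every set `S` of integers with `T_d(S) ⊆ S` on which `T_d` is injective up to
one point (every orbit, and the union of all cycles) has at most `C |d|^c X^(1-c)` elements in `[-X, X]`, for all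
`X ≥ |d|`, and the sum of `1 / (|z| + |d|)` over `z ∈ S` is at most `C`; and there is such a set which every orbit
enters and which contains all periodic points.
-/

namespace Pool.Agent.Results.MP_d0d59f_nt.EveryOrbit

open Pool.Agent.Lib.MP_d0d59f_nt

/-- `S` has at most `C |d|^c X^(1-c)` elements in `[-X, X]`, for all `X ≥ |d|`, and the sum of
`1 / (|z| + |d|)` over `z ∈ S` is at most `C`. -/
def Sparse (c C : ℝ) (d : ℤ) (S : Set ℤ) : Prop :=
  (∀ X : ℝ, |(d : ℝ)| ≤ X →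
    (Set.ncard {z : ℤ | z ∈ S ∧ |(z : ℝ)| ≤ X} : ℝ) ≤ C * |(d : ℝ)| ^ c * X ^ (1 - c)) ∧
  ∀ Z : Finset ℤ, (∀ z ∈ Z, z ∈ S) → ∑ z ∈ Z, 1 / (|(z : ℝ)| + |(d : ℝ)|) ≤ C

/-- There are absolute constants `c > 1 - H(log 2 / log 3) / log 2` and `C > 0` such that for every odd `d` not
divisible by `3`: every orbit of `T_d`, and more generally every set `S` with `T_d(S) ⊆ S` such that `T_d` is
injective on `S` without one point, has at most `C |d|^c X^(1-c)` elements in `[-X, X]`, for all `X ≥ |d|`, and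
the sum of `1 / (|z| + |d|)` over its elements is at most `C`; hence every orbit, until it repeats, grows like
`3^j / 2^n`: if `x_0, ..., x_(n-1)` (`x_i = T_d^i(x)`) are distinct and `j` of them are odd, then `|x_n|` is
`|x| 3^j / 2^n` up to a factor in `[C^(-d^2), C^(d^2)]`; and there is such a set which every orbit enters
and which contains all periodic points, with `T_d` injective on it. -/
theorem result :
    ∃ c : ℝ, 1 - Real.binEntropy (Real.log 2 / Real.log 3) / Real.log 2 < c ∧ ∃ C : ℝ, 0 < C ∧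
      ∀ d : ℤ, Odd d → ¬ (3 : ℤ) ∣ d →
        (∀ x : ℤ, Sparse c C d {z : ℤ | ∃ i : ℕ, (T d)^[i] x = z}) ∧
        (∀ (S : Set ℤ) (s : ℤ), (∀ z ∈ S, T d z ∈ S) → Set.InjOn (T d) (S \ {s}) → Sparse c C d S) ∧
        (∀ (x : ℤ) (n : ℕ), Set.InjOn (fun i : ℕ => (T d)^[i] x) (Set.Iio n) →
          |(x : ℝ)| * 3 ^ ones d x n / 2 ^ n / C ^ (d ^ 2) ≤ |(((T d)^[n] x : ℤ) : ℝ)| ∧
          |(((T d)^[n] x : ℤ) : ℝ)| ≤ |(x : ℝ)| * 3 ^ ones d x n / 2 ^ n * C ^ (d ^ 2)) ∧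
        ∃ S : Set ℤ, Sparse c C d S ∧ (∀ x : ℤ, ∃ k : ℕ, (T d)^[k] x ∈ S) ∧ (∀ z ∈ S, T d z ∈ S) ∧
          Set.InjOn (T d) S ∧ ∀ z : ℤ, (∃ q : ℕ, 0 < q ∧ (T d)^[q] z = z) → z ∈ S := by
  obtain ⟨c, hc, C₀, hC₀, h₀⟩ := EO.inv_all
  obtain ⟨C₁, hC₁, g₁⟩ := EO.growth_all
  -- one constant for all the parts
  set C : ℝ := max (max C₀ C₁) 1 with hCdef
  have h0C : C₀ ≤ C := (le_max_left _ _).trans (le_max_left _ _)
  have h1C : C₁ ≤ C := (le_max_right _ _).trans (le_max_left _ _)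
  have hC : 0 < C := lt_of_lt_of_le hC₀ h0C
  have h : ∀ d : ℤ, Odd d → ¬ (3 : ℤ) ∣ d → ∀ (S : Set ℤ) (s : ℤ),
      (∀ z ∈ S, T d z ∈ S) → Set.InjOn (T d) (S \ {s}) → Sparse c C d S := by
    intro d hd h3 S s hS hinj
    obtain ⟨h1, h2⟩ := h₀ d hd h3 S s hS hinj
    refine ⟨fun X hX => (h1 X hX).trans ?_, fun Z hZ => (h2 Z hZ).trans h0C⟩
    have hX0 : (0 : ℝ) ≤ X := (abs_nonneg _).trans hX
    have e1 : (0 : ℝ) ≤ |(d : ℝ)| ^ c := Real.rpow_nonneg (abs_nonneg _) _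
    have e2 : (0 : ℝ) ≤ X ^ (1 - c) := Real.rpow_nonneg hX0 _
    exact mul_le_mul_of_nonneg_right (mul_le_mul_of_nonneg_right h0C e1) e2
  have hpow : ∀ d : ℤ, C₁ ^ (d ^ 2) ≤ C ^ (d ^ 2) := by
    intro d
    obtain ⟨m, hm⟩ := Int.eq_ofNat_of_zero_le (sq_nonneg d)
    rw [hm, zpow_natCast, zpow_natCast]
    exact pow_le_pow_left₀ hC₁.le h1C m
  refine ⟨c, hc, C, hC, fun d hd h3 => ⟨fun x => ?_, fun S s hS hinj => h d hd h3 S s hS hinj,
    fun x n hn => ?_, ?_⟩⟩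
  · obtain ⟨s, hs⟩ := EO.orb_inj d x
    exact h d hd h3 (EO.Orb d x) s (fun z hz => EO.orb_T hz) hs
  · obtain ⟨g1, g2⟩ := g₁ d hd h3 x n hn
    have hx : (0 : ℝ) ≤ |(x : ℝ)| * 3 ^ ones d x n / 2 ^ n := by positivity
    have hp1 : (0 : ℝ) < C₁ ^ (d ^ 2) := zpow_pos hC₁ _
    exact ⟨(div_le_div_of_nonneg_left hx hp1 (hpow d)).trans g1,
      g2.trans (mul_le_mul_of_nonneg_left (hpow d) hx)⟩
  · obtain ⟨S, hS, hinj, hent, hper, -⟩ := EO.skeleton d
    exact ⟨S, h d hd h3 S 0 hS (hinj.mono Set.sdiff_subset), hent, hS, hinj, hper⟩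

end Pool.Agent.Results.MP_d0d59f_nt.EveryOrbit
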