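import Mathlib
import Pool.Agent.Lib.MP_d0d59f_nt.Basic
import Pool.Agent.Lib.MP_d0d59f_nt.NK.K042

/-!
Natural densities of the sets of integers invariant under `T_d`, for every odd `d` not divisible by `3`: every invariant
set has a natural density, the sum of the densities of its grand orbits; every grand orbit except `{0}` has a positive
natural density, and the densities of the grand orbits have sum one.
-/

namespace Pool.Agent.Results.MP_d0d59f_nt.NaturalDensity

open Filter Topology Pool.Agent.Lib.MP_d0d59f_nt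

/-- The grand orbits of `T_d`: `x` and `y` are equivalent if their orbits meet. -/
def grand (d : ℤ) : Setoid ℤ where
  r x y := ∃ m n : ℕ, (T d)^[m] x = (T d)^[n] y
  iseqv := (ND.grand d).iseqv

/-- the integers of absolute value less than `X` are finite in number. -/
theorem fin_abs (X : ℝ) : {x : ℤ | |(x : ℝ)| < X}.Finite := by
  apply Set.Finite.subset (Set.finite_Icc (-⌈X⌉) ⌈X⌉)
  intro x hx
  have h1 := abs_lt.1 (show |(x : ℝ)| < X from hx)
  have h2 := Int.le_ceil X
  constructor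
  · have : (-(⌈X⌉ : ℝ)) ≤ x := by linarith
    exact_mod_cast this
  · have : (x : ℝ) ≤ ⌈X⌉ := by linarith
    exact_mod_cast this

/-- all integers have density one. -/
theorem dens_univ : Tendsto (fun X : ℝ => (Set.ncard {x : ℤ | |(x : ℝ)| < X} : ℝ) / (2 * X)) atTop (𝓝 1) := by
  have hc : ∀ X : ℝ, 0 < X → (Set.ncard {x : ℤ | |(x : ℝ)| < X} : ℝ) = 2 * ⌈X⌉ - 1 := by
    intro X hX
    have h1 : {x : ℤ | |(x : ℝ)| < X} = ((Finset.Ioo (-⌈X⌉) ⌈X⌉ : Finset ℤ) : Set ℤ) := by
      ext x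
      simp only [Set.mem_setOf_eq, Finset.coe_Ioo, Set.mem_Ioo]
      rw [← abs_lt, Int.lt_ceil]
      push_cast
      rfl
    have h2 : 0 < ⌈X⌉ := Int.ceil_pos.2 hX
    rw [h1, Set.ncard_coe_finset, Int.card_Ioo]
    have h3 : ((⌈X⌉ - -⌈X⌉ - 1).toNat : ℤ) = 2 * ⌈X⌉ - 1 := by omega
    exact_mod_cast h3
  have hl : Tendsto (fun X : ℝ => 1 - 1 / (2 * X)) atTop (𝓝 1) := by
    have : Tendsto (fun X : ℝ => 1 / (2 * X)) atTop (𝓝 0) := by
      have h := (tendsto_inv_atTop_zero (𝕜 := ℝ)).const_mul (1 / 2 : ℝ)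
      simp only [mul_zero] at h
      refine h.congr fun X => ?_
      field_simp
    simpa using (tendsto_const_nhds (x := (1 : ℝ))).sub this
  have hu : Tendsto (fun X : ℝ => 1 + 1 / (2 * X)) atTop (𝓝 1) := by
    have : Tendsto (fun X : ℝ => 1 / (2 * X)) atTop (𝓝 0) := by
      have h := (tendsto_inv_atTop_zero (𝕜 := ℝ)).const_mul (1 / 2 : ℝ)
      simp only [mul_zero] at h
      refine h.congr fun X => ?_
      field_simp
    simpa using (tendsto_const_nhds (x := (1 : ℝ))).add this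
  refine tendsto_of_tendsto_of_tendsto_of_le_of_le' hl hu ?_ ?_
  · filter_upwards [eventually_gt_atTop 0] with X hX
    rw [hc X hX]
    have h1 := Int.le_ceil X
    rw [le_div_iff₀ (by linarith)]
    have : (1 - 1 / (2 * X)) * (2 * X) = 2 * X - 1 := by field_simp
    rw [this]
    linarith
  · filter_upwards [eventually_gt_atTop 0] with X hX
    rw [hc X hX]
    have h1 := Int.ceil_lt_add_one X
    rw [div_le_iff₀ (by linarith)]
    have : (1 + 1 / (2 * X)) * (2 * X) = 2 * X + 1 := by field_simp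
    rw [this]
    linarith

/-- **Scheffé.** If the classes of an equivalence relation on `ℤ` have natural densities with sum one, then every union of
classes has a natural density, the sum of the densities of its classes. -/
theorem union_density (r : Setoid ℤ) (δ : Quotient r → ℝ)
    (h : ∀ G : Quotient r, Tendsto (fun X : ℝ =>
      (Set.ncard {x : ℤ | |(x : ℝ)| < X ∧ Quotient.mk r x = G} : ℝ) / (2 * X)) atTop (𝓝 (δ G)))
    (hs : HasSum δ 1) (S : Set (Quotient r)) :
    Tendsto (fun X : ℝ => (Set.ncard {x : ℤ | |(x : ℝ)| < X ∧ Quotient.mk r x ∈ S} : ℝ) / (2 * X)) atTop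
      (𝓝 (∑' G : S, δ G)) := by
  classical
  have hf : ∀ (X : ℝ) (P : ℤ → Prop), {x : ℤ | |(x : ℝ)| < X ∧ P x}.Finite := fun X P =>
    (fin_abs X).subset fun x hx => hx.1
  have hfin : ∀ P : Finset (Quotient r), Tendsto (fun X : ℝ =>
      (Set.ncard {x : ℤ | |(x : ℝ)| < X ∧ Quotient.mk r x ∈ P} : ℝ) / (2 * X)) atTop (𝓝 (∑ G ∈ P, δ G)) := by
    intro P
    induction P using Finset.induction_on with
    | empty => simp
    | insert a P ha ih =>
      rw [Finset.sum_insert ha]
      refine ((h a).add ih).congr fun X => ?_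
      rw [← add_div]
      congr 1
      have h1 : {x : ℤ | |(x : ℝ)| < X ∧ Quotient.mk r x ∈ insert a P} =
          {x : ℤ | |(x : ℝ)| < X ∧ Quotient.mk r x = a} ∪ {x : ℤ | |(x : ℝ)| < X ∧ Quotient.mk r x ∈ P} := by
        ext x
        simp only [Finset.mem_insert, Set.mem_setOf_eq, Set.mem_union]
        tauto
      rw [h1, Set.ncard_union_eq _ (hf X _) (hf X _)]
      · push_cast; rfl
      · rw [Set.disjoint_left]
        rintro x ⟨-, hx⟩ ⟨-, hx'⟩
        rw [hx] at hx'
        exact ha hx'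
  have hlow : ∀ (S : Set (Quotient r)) (ε : ℝ), 0 < ε → ∀ᶠ X : ℝ in atTop,
      (∑' G : S, δ G) - ε < (Set.ncard {x : ℤ | |(x : ℝ)| < X ∧ Quotient.mk r x ∈ S} : ℝ) / (2 * X) := by
    intro S ε hε
    have hsum : Summable fun G : S => δ G := hs.summable.subtype S
    have h1 := hsum.hasSum.eventually (lt_mem_nhds (show (∑' G : S, δ G) - ε / 2 < ∑' G : S, δ G by linarith))
    obtain ⟨P, hP⟩ := h1.exists
    have h2 : ∑ G ∈ P, δ G = ∑ G ∈ P.map (Function.Embedding.subtype (· ∈ S)), δ G := by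
      rw [Finset.sum_map]
      rfl
    rw [h2] at hP
    have h3 := (hfin (P.map (Function.Embedding.subtype (· ∈ S)))).eventually (lt_mem_nhds hP)
    have h3' := (hfin (P.map (Function.Embedding.subtype (· ∈ S)))).eventually
      (lt_mem_nhds (show (∑ G ∈ P.map (Function.Embedding.subtype (· ∈ S)), δ G) - ε / 2 < _ by linarith))
    filter_upwards [h3', eventually_gt_atTop 0] with X hX hX0
    have h4 : (Set.ncard {x : ℤ | |(x : ℝ)| < X ∧ Quotient.mk r x ∈ P.map (Function.Embedding.subtype (· ∈ S))} : ℝ) /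
        (2 * X) ≤ (Set.ncard {x : ℤ | |(x : ℝ)| < X ∧ Quotient.mk r x ∈ S} : ℝ) / (2 * X) := by
      apply div_le_div_of_nonneg_right _ (by linarith)
      have h5 := Set.ncard_le_ncard (s := {x : ℤ | |(x : ℝ)| < X ∧
        Quotient.mk r x ∈ P.map (Function.Embedding.subtype (· ∈ S))}) (t := {x : ℤ | |(x : ℝ)| < X ∧
        Quotient.mk r x ∈ S}) (fun x hx => ⟨hx.1, by
          obtain ⟨y, -, hy⟩ := Finset.mem_map.1 hx.2
          rw [← hy]
          exact y.2⟩) (hf X _)
      exact_mod_cast h5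
    linarith
  rw [Metric.tendsto_nhds]
  intro ε hε
  have h1 := hlow S (ε / 2) (by linarith)
  have h2 := hlow Sᶜ (ε / 4) (by linarith)
  have h3 := (Metric.tendsto_nhds.1 dens_univ) (ε / 4) (by linarith)
  have h4 : (∑' G : S, δ G) + ∑' G : (Sᶜ : Set (Quotient r)), δ G = 1 := by
    rw [← hs.tsum_eq]
    exact hs.summable.tsum_subtype_add_tsum_subtype_compl S
  filter_upwards [h1, h2, h3] with X e1 e2 e3
  have e4 : (Set.ncard {x : ℤ | |(x : ℝ)| < X ∧ Quotient.mk r x ∈ S} : ℝ) / (2 * X) +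
      (Set.ncard {x : ℤ | |(x : ℝ)| < X ∧ Quotient.mk r x ∈ Sᶜ} : ℝ) / (2 * X) =
      (Set.ncard {x : ℤ | |(x : ℝ)| < X} : ℝ) / (2 * X) := by
    rw [← add_div]
    congr 1
    have e5 : {x : ℤ | |(x : ℝ)| < X} = {x : ℤ | |(x : ℝ)| < X ∧ Quotient.mk r x ∈ S} ∪
        {x : ℤ | |(x : ℝ)| < X ∧ Quotient.mk r x ∈ Sᶜ} := by
      ext x
      simp only [Set.mem_setOf_eq, Set.mem_union, Set.mem_compl_iff]
      tauto
    rw [e5, Set.ncard_union_eq _ (hf X _) (hf X _)]
    · push_cast; rfl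
    · rw [Set.disjoint_left]
      rintro x ⟨-, hx⟩ ⟨-, hx'⟩
      exact hx' hx
  rw [Real.dist_eq] at e3 ⊢
  have e5 := abs_lt.1 e3
  rw [abs_lt]
  constructor <;> linarith

/-- an invariant set is the union of its grand orbits. -/
theorem mem_iff {d : ℤ} {A : Set ℤ} (hA : ∀ x, T d x ∈ A ↔ x ∈ A) (x : ℤ) :
    Quotient.mk (grand d) x ∈ Quotient.mk (grand d) '' A ↔ x ∈ A := by
  have hit : ∀ (n : ℕ) (y : ℤ), (T d)^[n] y ∈ A ↔ y ∈ A := by
    intro n
    induction n with
    | zero => intro y; rfl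
    | succ n ih => intro y; rw [Function.iterate_succ_apply, ih, hA]
  constructor
  · rintro ⟨y, hy, hxy⟩
    obtain ⟨m, n, hmn⟩ : ∃ m n : ℕ, (T d)^[m] y = (T d)^[n] x := Quotient.exact hxy
    rw [← hit n x, ← hmn, hit]
    exact hy
  · exact fun hx => ⟨x, hx, rfl⟩

/-- For `d` odd and not divisible by `3` every set of integers invariant under `T_d` has a two-sided natural density, the sum
of the densities `δ G` of its grand orbits `G`; `δ G` is positive except for the grand orbit `{0}`, and the `δ G` have sum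
one. -/
theorem result (d : ℤ) (hd : Odd d) (h3 : ¬ (3 : ℤ) ∣ d) :
    ∃ δ : Quotient (grand d) → ℝ,
      (∀ A : Set ℤ, (∀ x, T d x ∈ A ↔ x ∈ A) → Tendsto (fun X : ℝ =>
        (Set.ncard {x : ℤ | |(x : ℝ)| < X ∧ x ∈ A} : ℝ) / (2 * X)) atTop
          (𝓝 (∑' G : (Quotient.mk (grand d) '' A : Set (Quotient (grand d))), δ G))) ∧
      (∀ G : Quotient (grand d), G ≠ Quotient.mk (grand d) 0 → 0 < δ G) ∧ HasSum δ 1 := by
  obtain ⟨δ, h1, h2, h3'⟩ : ∃ δ : Quotient (grand d) → ℝ,
      (∀ G : Quotient (grand d), Tendsto (fun X : ℝ =>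
        (Set.ncard {x : ℤ | |(x : ℝ)| < X ∧ Quotient.mk (grand d) x = G} : ℝ) / (2 * X)) atTop
          (𝓝 (δ G))) ∧
      (∀ G : Quotient (grand d), G ≠ Quotient.mk (grand d) 0 → 0 < δ G) ∧ HasSum δ 1 :=
    ND.grand_two hd h3
  refine ⟨δ, fun A hA => ?_, h2, h3'⟩
  have h4 := union_density (grand d) δ h1 h3' (Quotient.mk (grand d) '' A)
  simpa only [mem_iff hA] using h4

end Pool.Agent.Results.MP_d0d59f_nt.NaturalDensity
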