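import Mathlib
import Pool.Agent.Lib.MP_d0d59f_nt.Basic
import Pool.Agent.Lib.MP_d0d59f_nt.NK.K039

/-!
Every predecessor set of the map `T_d` (`d` odd, not divisible by `3`) has positive lower natural density,
uniformly in `d` and in the root, also after it is cut at a finite set and at the root: there is `c > 0` such
that for every integer `a` not divisible by `3`, every finite set `F` which contains no `2 ^ j * a`, and all
`X ≥ |a| + |d|`, at least `c X / (16 ^ |F| (|a| + |d|))` integers `m` with `|m| ≤ X` have an orbit which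
reaches `a` before it meets `F`, and all of whose elements up to `a` lie beyond `a`, on the same side of `0`.

Hence almost all implies all: Q1 holds for `d` if and only if there is a finite set `F` such that the
integers whose orbit avoids `F` have lower natural density zero; and if and only if for all large `B` the
integers whose orbit stays outside `(-B, B)` have lower density less than `c / (B + |d|)`.
-/

namespace Pool.Agent.Results.MP_d0d59f_nt.PositiveDensity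

open Pool.Agent.Lib.MP_d0d59f_nt

/-- If `3` does not divide `y` and `d` then it does not divide `T d y`. -/
private theorem three_T {d y : ℤ} (h3 : ¬ (3 : ℤ) ∣ d) (hy : ¬ (3 : ℤ) ∣ y) (hd : Odd d) :
    ¬ (3 : ℤ) ∣ T d y := by
  unfold T
  split_ifs with h
  · intro h1
    apply hy
    omega
  · intro h1
    apply h3
    obtain ⟨k, hk⟩ := hd
    omega

private theorem three_T_odd {d y : ℤ} (h3 : ¬ (3 : ℤ) ∣ d) (hd : Odd d) (hy : y % 2 = 1) :
    ¬ (3 : ℤ) ∣ T d y := by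
  unfold T
  obtain ⟨k, hk⟩ := hd
  split_ifs with h
  · omega
  · intro h1
    apply h3
    omega

private theorem three_iter {d : ℤ} (h3 : ¬ (3 : ℤ) ∣ d) (hd : Odd d) {y : ℤ} (hy : ¬ (3 : ℤ) ∣ y) (k : ℕ) :
    ¬ (3 : ℤ) ∣ (T d)^[k] y := by
  induction k with
  | zero => exact hy
  | succ k ih =>
    rw [Function.iterate_succ_apply']
    exact three_T h3 ih hd

/-- The orbit of `y ≠ 0` has an element which is not divisible by `3`. -/
private theorem exists_three {d : ℤ} (h3 : ¬ (3 : ℤ) ∣ d) (hd : Odd d) :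
    ∀ (n : ℕ) (y : ℤ), y ≠ 0 → y.natAbs ≤ n → ∃ k : ℕ, ¬ (3 : ℤ) ∣ (T d)^[k] y := by
  intro n
  induction n with
  | zero =>
    intro y hy hn
    omega
  | succ n ih =>
    intro y hy hn
    rcases Int.emod_two_eq_zero_or_one y with h | h
    · have h1 : T d y = y / 2 := by unfold T; rw [if_pos h]
      obtain ⟨k, hk⟩ := ih (T d y) (by rw [h1]; omega) (by rw [h1]; omega)
      exact ⟨k + 1, by rw [Function.iterate_succ_apply]; exact hk⟩
    · exact ⟨1, by simpa using three_T_odd h3 hd h⟩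

/-- The first part, as a property of `c`. -/
private def Cut (c : ℝ) : Prop := ∀ d a : ℤ, Odd d →
    ¬ (3 : ℤ) ∣ d → ¬ (3 : ℤ) ∣ a → ∀ F : Finset ℤ, (∀ j : ℕ, 2 ^ j * a ∉ F) →
    ∀ X : ℝ, |(a : ℝ)| + |(d : ℝ)| ≤ X →
      c * (X / (16 ^ F.card * (|(a : ℝ)| + |(d : ℝ)|))) ≤
        (Set.ncard {m : ℤ | |(m : ℝ)| ≤ X ∧
          ∃ k : ℕ, (T d)^[k] m = a ∧ ∀ i ≤ k, (T d)^[i] m ∉ F ∧
            1 ≤ (((T d)^[i] m : ℤ) : ℝ) / (a : ℝ)} : ℝ)

private theorem finite_box (X : ℝ) (P : ℤ → Prop) : {m : ℤ | |(m : ℝ)| ≤ X ∧ P m}.Finite := by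
  refine (Set.finite_Icc (-⌈X⌉) ⌈X⌉).subset ?_
  rintro m ⟨hm, -⟩
  have h1 := abs_le.1 (hm.trans (Int.le_ceil X))
  constructor
  · exact_mod_cast h1.1
  · exact_mod_cast h1.2

/-- An orbit which avoids all integers `2 ^ j * a`-free sets: the positive density of the avoiders. -/
private theorem avoid {c : ℝ} (hc : Cut c) {d : ℤ} (hd : Odd d) (h3 : ¬ (3 : ℤ) ∣ d) {a : ℤ}
    (ha : ¬ (3 : ℤ) ∣ a) (F : Finset ℤ) (hF : ∀ j : ℕ, 2 ^ j * a ∉ F) (P : ℤ → Prop)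
    (hP : ∀ m : ℤ, (∃ k : ℕ, (T d)^[k] m = a ∧ ∀ i ≤ k, (T d)^[i] m ∉ F ∧
            1 ≤ (((T d)^[i] m : ℤ) : ℝ) / (a : ℝ)) → P m) (X : ℝ) (hX : |(a : ℝ)| + |(d : ℝ)| ≤ X) :
    c * (X / (16 ^ F.card * (|(a : ℝ)| + |(d : ℝ)|))) ≤
      (Set.ncard {m : ℤ | |(m : ℝ)| ≤ X ∧ P m} : ℝ) := by
  refine (hc d a hd h3 ha F hF X hX).trans ?_
  apply Nat.cast_le.2
  apply Set.ncard_le_ncard _ (finite_box X P)
  rintro m ⟨h1, h2⟩
  exact ⟨h1, hP m h2⟩

/-- Almost all implies all: `d` satisfies Q1 if and only if some finite set is avoided by a set of orbits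
of lower density zero. -/
private theorem almost_all {c : ℝ} (hc0 : 0 < c) (hc : Cut c) {d : ℤ} (hd : Odd d) (h3 : ¬ (3 : ℤ) ∣ d) :
    (∃ F : Finset ℤ, ∀ x : ℤ, ∃ k : ℕ, (T d)^[k] x ∈ F) ↔
      ∃ F : Finset ℤ, ∀ ε : ℝ, 0 < ε → ∀ X₀ : ℝ, ∃ X : ℝ, X₀ ≤ X ∧
        (Set.ncard {x : ℤ | |(x : ℝ)| ≤ X ∧ ∀ k : ℕ, (T d)^[k] x ∉ F} : ℝ) ≤ ε * X := by
  constructor
  · rintro ⟨F, hF⟩
    refine ⟨F, fun ε hε X₀ => ⟨max X₀ 0, le_max_left _ _, ?_⟩⟩
    have h1 : {x : ℤ | |(x : ℝ)| ≤ max X₀ 0 ∧ ∀ k : ℕ, (T d)^[k] x ∉ F} = ∅ := by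
      apply Set.eq_empty_of_forall_notMem
      rintro x ⟨-, hx⟩
      obtain ⟨k, hk⟩ := hF x
      exact hx k hk
    rw [h1, Set.ncard_empty, Nat.cast_zero]
    positivity
  · rintro ⟨F, hF⟩
    by_contra hcon
    push Not at hcon
    set M : ℤ := ∑ f ∈ F, |f| with hM
    have hMf : ∀ f ∈ F, |f| ≤ M := fun f hf => Finset.single_le_sum (fun i _ => abs_nonneg i) hf
    have hM0 : 0 ≤ M := Finset.sum_nonneg fun i _ => abs_nonneg i
    obtain ⟨x, hx⟩ := hcon (Finset.Icc (-M) M)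
    have hx' : ∀ k, M < |(T d)^[k] x| := by
      intro k
      by_contra h
      push Not at h
      exact hx k (Finset.mem_Icc.2 (abs_le.1 h))
    have hx0 : x ≠ 0 := by
      rintro rfl
      have := hx' 0
      simp at this
      omega
    obtain ⟨k0, hk0⟩ := exists_three h3 hd _ x hx0 le_rfl
    set a := (T d)^[k0] x with ha
    have hadd : ∀ k, (T d)^[k] a = (T d)^[k + k0] x := fun k => by
      rw [ha, Function.iterate_add_apply]
    have hcut := avoid hc hd h3 hk0 F (fun j hj => by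
      have h1 := hMf _ hj
      rw [abs_mul, abs_pow] at h1
      have h2 : M < |a| := hx' k0
      have h3' : (1 : ℤ) ≤ |2| ^ j := one_le_pow₀ (by norm_num)
      nlinarith [abs_nonneg a]) (fun m => ∀ k : ℕ, (T d)^[k] m ∉ F) (by
      rintro m ⟨k, hk, hi⟩ i
      rcases le_or_gt i k with h | h
      · exact (hi i h).1
      · intro h1
        obtain ⟨l, rfl⟩ := Nat.exists_eq_add_of_le h.le
        rw [Nat.add_comm, Function.iterate_add_apply, hk, hadd] at h1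
        exact absurd (hMf _ h1) (not_le.2 (hx' _)))
    have hs : 0 < |(a : ℝ)| + |(d : ℝ)| := by
      have : a ≠ 0 := by
        intro h
        apply hk0
        rw [h]
        exact dvd_zero 3
      have h1 : 0 < |(a : ℝ)| := abs_pos.2 (by exact_mod_cast this)
      positivity
    set D : ℝ := 16 ^ F.card * (|(a : ℝ)| + |(d : ℝ)|) with hD
    have hD0 : 0 < D := by positivity
    obtain ⟨X, hX, hX1⟩ := hF (c / (2 * D)) (by positivity) (|(a : ℝ)| + |(d : ℝ)|)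
    have h1 := hcut X hX
    have hX0 : 0 < X := hs.trans_le hX
    have h2 : c * (X / D) ≤ c / (2 * D) * X := h1.trans hX1
    have h4 : c / (2 * D) * X = c * (X / D) / 2 := by
      field_simp
    rw [h4] at h2
    have h5 : 0 < c * (X / D) := by positivity
    linarith

/-- The quantitative form. -/
private theorem threshold {c : ℝ} (hc0 : 0 < c) (hc : Cut c) {d : ℤ} (hd : Odd d) (h3 : ¬ (3 : ℤ) ∣ d) :
    (∃ F : Finset ℤ, ∀ x : ℤ, ∃ k : ℕ, (T d)^[k] x ∈ F) ↔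
      ∃ B₀ : ℝ, ∀ B : ℝ, B₀ ≤ B → ∀ X₀ : ℝ, ∃ X : ℝ, X₀ ≤ X ∧
        (Set.ncard {x : ℤ | |(x : ℝ)| ≤ X ∧ ∀ k : ℕ, B ≤ |(((T d)^[k] x : ℤ) : ℝ)|} : ℝ) <
          c * (X / (B + |(d : ℝ)|)) := by
  constructor
  · rintro ⟨F, hF⟩
    set M : ℤ := ∑ f ∈ F, |f| with hM
    have hMf : ∀ f ∈ F, |f| ≤ M := fun f hf => Finset.single_le_sum (fun i _ => abs_nonneg i) hf
    have hM0 : 0 ≤ M := Finset.sum_nonneg fun i _ => abs_nonneg i
    refine ⟨M + 1, fun B hB X₀ => ⟨max X₀ 1, le_max_left _ _, ?_⟩⟩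
    have h1 : {x : ℤ | |(x : ℝ)| ≤ max X₀ 1 ∧ ∀ k : ℕ, B ≤ |(((T d)^[k] x : ℤ) : ℝ)|} = ∅ := by
      apply Set.eq_empty_of_forall_notMem
      rintro x ⟨-, hx⟩
      obtain ⟨k, hk⟩ := hF x
      have h2 : |(((T d)^[k] x : ℤ) : ℝ)| ≤ M := by exact_mod_cast hMf _ hk
      have h3 := hx k
      linarith
    rw [h1, Set.ncard_empty, Nat.cast_zero]
    have h2 : (0 : ℝ) ≤ M := by exact_mod_cast hM0
    have h3 : 0 < B := by linarith
    have h4 : (0 : ℝ) < max X₀ 1 := lt_of_lt_of_le one_pos (le_max_right _ _)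
    positivity
  · rintro ⟨B₀, hB⟩
    by_contra hcon
    push Not at hcon
    set M : ℤ := max ⌈B₀⌉ 0 with hM
    have hM0 : 0 ≤ M := le_max_right _ _
    obtain ⟨x, hx⟩ := hcon (Finset.Icc (-M) M)
    have hx' : ∀ k, M < |(T d)^[k] x| := by
      intro k
      by_contra h
      push Not at h
      exact hx k (Finset.mem_Icc.2 (abs_le.1 h))
    have hx0 : x ≠ 0 := by
      rintro rfl
      have := hx' 0
      simp at this
      omega
    have hne : ∃ n : ℕ, ∃ k : ℕ, ¬ (3 : ℤ) ∣ (T d)^[k] x ∧ ((T d)^[k] x).natAbs = n := by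
      obtain ⟨k0, hk0⟩ := exists_three h3 hd _ x hx0 le_rfl
      exact ⟨_, k0, hk0, rfl⟩
    classical
    obtain ⟨k0, hk0, hk1⟩ := Nat.find_spec hne
    have hmin : ∀ k, ¬ (3 : ℤ) ∣ (T d)^[k] x → Nat.find hne ≤ ((T d)^[k] x).natAbs := fun k hk =>
      Nat.find_min' hne ⟨k, hk, rfl⟩
    set a := (T d)^[k0] x with ha
    have hadd : ∀ k, (T d)^[k] a = (T d)^[k + k0] x := fun k => by
      rw [ha, Function.iterate_add_apply]
    have hle : ∀ k, |a| ≤ |(T d)^[k] a| := by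
      intro k
      have h1 : ¬ (3 : ℤ) ∣ (T d)^[k] a := three_iter h3 hd hk0 k
      rw [hadd] at h1 ⊢
      have h2 := hmin _ h1
      rw [← hk1] at h2
      rw [Int.abs_eq_natAbs, Int.abs_eq_natAbs]
      exact_mod_cast h2
    have hcut := avoid hc hd h3 hk0 ∅ (fun j => Finset.notMem_empty _)
      (fun m => ∀ k : ℕ, |(a : ℝ)| ≤ |(((T d)^[k] m : ℤ) : ℝ)|) (by
      rintro m ⟨k, hk, hi⟩ i
      rcases le_or_gt i k with h | h
      · have h1 := (hi i h).2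
        have ha0 : 0 < |(a : ℝ)| := by
          have h2 : M < |a| := hx' k0
          have h3 : 0 < |a| := by omega
          exact_mod_cast h3
        have h2 : 1 ≤ |(((T d)^[i] m : ℤ) : ℝ)| / |(a : ℝ)| := by
          rw [← abs_div]
          exact h1.trans (le_abs_self _)
        rwa [le_div_iff₀ ha0, one_mul] at h2
      · obtain ⟨l, rfl⟩ := Nat.exists_eq_add_of_le h.le
        rw [Nat.add_comm, Function.iterate_add_apply, hk]
        exact_mod_cast hle l)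
    have hMa : M < |a| := hx' k0
    have hB1 : B₀ ≤ |(a : ℝ)| := by
      have h1 : B₀ ≤ (⌈B₀⌉ : ℝ) := Int.le_ceil _
      have h2 : ⌈B₀⌉ < |a| := lt_of_le_of_lt (le_max_left _ _) hMa
      have h3 : ((⌈B₀⌉ : ℤ) : ℝ) < |(a : ℝ)| := by exact_mod_cast h2
      linarith
    obtain ⟨X, hX, hX1⟩ := hB |(a : ℝ)| hB1 (|(a : ℝ)| + |(d : ℝ)|)
    have h1 := hcut X hX
    rw [Finset.card_empty, pow_zero, one_mul] at h1
    exact absurd hX1 (not_lt.2 h1)

/-- There is `c > 0` such that for all odd `d` not divisible by `3`: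

for all `a` not divisible by `3`, all finite sets `F` of integers with `2 ^ j * a ∉ F` for all `j`, and
all real `X ≥ |a| + |d|`: at least `c X / (16 ^ |F| (|a| + |d|))` integers `m` with `|m| ≤ X` satisfy
`T_d^k(m) = a` for some `k` with `T_d^i(m) ∉ F` and `T_d^i(m) / a ≥ 1` for all `i ≤ k`;

hence almost all implies all: Q1 holds for `d` (some finite set meets all orbits of `T_d`) if and only if for
some finite set `F` the integers whose orbit avoids `F` have lower density zero; and also if and only if for all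
large `B` there are arbitrarily large `X` such that less than `c X / (B + |d|)` integers `x` with `|x| ≤ X`
satisfy `|T_d^k(x)| ≥ B` for all `k`. -/
theorem result : ∃ c : ℝ, 0 < c ∧ ∀ d : ℤ, Odd d → ¬ (3 : ℤ) ∣ d →
    (∀ a : ℤ, ¬ (3 : ℤ) ∣ a → ∀ F : Finset ℤ, (∀ j : ℕ, 2 ^ j * a ∉ F) →
      ∀ X : ℝ, |(a : ℝ)| + |(d : ℝ)| ≤ X →
        c * (X / (16 ^ F.card * (|(a : ℝ)| + |(d : ℝ)|))) ≤
          (Set.ncard {m : ℤ | |(m : ℝ)| ≤ X ∧
            ∃ k : ℕ, (T d)^[k] m = a ∧ ∀ i ≤ k, (T d)^[i] m ∉ F ∧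
              1 ≤ (((T d)^[i] m : ℤ) : ℝ) / (a : ℝ)} : ℝ)) ∧
    ((∃ F : Finset ℤ, ∀ x : ℤ, ∃ k : ℕ, (T d)^[k] x ∈ F) ↔
      ∃ F : Finset ℤ, ∀ ε : ℝ, 0 < ε → ∀ X₀ : ℝ, ∃ X : ℝ, X₀ ≤ X ∧
        (Set.ncard {x : ℤ | |(x : ℝ)| ≤ X ∧ ∀ k : ℕ, (T d)^[k] x ∉ F} : ℝ) ≤ ε * X) ∧
    ((∃ F : Finset ℤ, ∀ x : ℤ, ∃ k : ℕ, (T d)^[k] x ∈ F) ↔
      ∃ B₀ : ℝ, ∀ B : ℝ, B₀ ≤ B → ∀ X₀ : ℝ, ∃ X : ℝ, X₀ ≤ X ∧
        (Set.ncard {x : ℤ | |(x : ℝ)| ≤ X ∧ ∀ k : ℕ, B ≤ |(((T d)^[k] x : ℤ) : ℝ)|} : ℝ) <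
          c * (X / (B + |(d : ℝ)|))) := by
  obtain ⟨c, hc0, hc⟩ := PD.density_cut2
  exact ⟨c, hc0, fun d hd h3 => ⟨fun a ha => hc d a hd h3 ha, almost_all hc0 hc hd h3,
    threshold hc0 hc hd h3⟩⟩

end Pool.Agent.Results.MP_d0d59f_nt.PositiveDensity
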