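import Pool.Agent.Lib.MP_d0d59f_nt.Basic
import Pool.Agent.Lib.MP_d0d59f_nt.PZ.K033
import Pool.Agent.Lib.MP_d0d59f_nt.PZ.K036

/-!
Almost bounded orbits with a power saving beyond the entropy exponent, in natural density and uniformly in `d`:
there are `c > 1 - H(log 2 / log 3) / log 2 = 0.05004...` (`H` the binary entropy) and `C > 0` such that for all
`d` odd and not divisible by `3`, all `B ≥ 2` and all `X ≥ |d|`, at most `C X / B^c` integers `x` with `|x| ≤ X`
have a `T_d`-orbit that stays above `B |d|` in absolute value for `C log (X / |d|)` steps.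
-/

namespace Pool.Agent.Results.MP_d0d59f_nt.PowerSaving

open Pool.Agent.Lib.MP_d0d59f_nt

/-- There are absolute constants `c > 1 - H(log 2 / log 3) / log 2` and `C` such that for every odd `d` not
divisible by `3`, all `B ≥ 2` and `X ≥ |d|`, at most `C X / B ^ c` integers `x` with `|x| ≤ X` satisfy
`|T_d^k(x)| > B |d|` for all `k ≤ C log (X / |d|)`. -/
theorem result :
    ∃ c : ℝ, 1 - Real.binEntropy (Real.log 2 / Real.log 3) / Real.log 2 < c ∧
    ∃ C : ℝ, 0 < C ∧ ∀ d : ℤ, Odd d → ¬ (3 : ℤ) ∣ d → ∀ B X : ℝ, 2 ≤ B → |(d : ℝ)| ≤ X →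
      (Set.ncard {x : ℤ | |(x : ℝ)| ≤ X ∧ ∀ k : ℕ, (k : ℝ) ≤ C * Real.log (X / |(d : ℝ)|) →
        B * |(d : ℝ)| < |(((T d)^[k] x : ℤ) : ℝ)|} : ℝ) ≤ C * X / B ^ c :=
  PX.power_saving2 (fun C ε hε => Pool.Agent.Lib.MP_b27257_nt.BT.ridout_pq 3 2 (by norm_num) (by norm_num) C ε hε)

end Pool.Agent.Results.MP_d0d59f_nt.PowerSaving
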